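import Pool.Agent.Helper88.Ric.Stmts

/-!
MP_092777_ag, module REQ: the relation `ricR` is an equivalence relation.
-/

set_option autoImplicit false

open scoped ContDiff Manifold Topology MatrixGroups LinearAlgebra.Projectivization
open Complex

noncomputable section

namespace RicP

/-- the matrix `[1, b; 0, 1]` -/
def REQ_mat (b : ℤ) : SL(2, ℤ) := ⟨!![1, b; 0, 1], by simp [Matrix.det_fin_two]⟩

theorem REQ_mat00 (b : ℤ) : REQ_mat b 0 0 = 1 := rfl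
theorem REQ_mat01 (b : ℤ) : REQ_mat b 0 1 = b := rfl
theorem REQ_mat10 (b : ℤ) : REQ_mat b 1 0 = 0 := rfl
theorem REQ_mat11 (b : ℤ) : REQ_mat b 1 1 = 1 := rfl

theorem REQ_borel (b : ℤ) : REQ_mat b ∈ borel := REQ_mat10 b

theorem REQ_D0_ne {N : ℕ} {k : ZMod N} {p x₀ : E} (h : D0 k p x₀) : p.1 * p.2 ≠ 0 := by
  rw [← h.2.1]
  exact Complex.exp_ne_zero _

/-- two representatives of the same point of a node chart are related -/
theorem REQ_rep (hB : ST_BOR) (hDU : ST_DU) (M : ModData) (N : ℕ) (hN : NOK N) (t : ℝ)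
    (q : QN M N) (k : ZMod N) (p x₀ x₁ : E) (h₀ : D0 k p x₀) (h₁ : D0 k p x₁) :
    GR M t q q x₀ x₁ := by
  obtain ⟨h4, h8⟩ := hN
  obtain ⟨j, m, hj, hm⟩ := (hDU N (by omega) k p x₀ x₁ h₀).1 h₁
  obtain ⟨s, hs, h00, h11, hτ, hV1, hV2, -, hker⟩ := hB M (REQ_mat ((N : ℤ) * j)) (REQ_borel _)
  have hs1 : s = 1 := by
    rw [REQ_mat00] at h00
    exact h00.symm
  have hone : RicP.hN M N (REQ_mat ((N : ℤ) * j)) = 1 :=
    hker N h4 hs1 (by rw [REQ_mat01]; exact dvd_mul_right _ _)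
  have hχ : M.χ (REQ_mat ((N : ℤ) * j)) = 1 := by
    have := congrArg Prod.snd hone
    simpa [RicP.hN] using this
  obtain ⟨hjj, hmob⟩ := hτ x₀.1
  have hmob' : mob (REQ_mat ((N : ℤ) * j)) x₀.1 = x₀.1 + (N : ℂ) * j := by
    rw [hmob, hs1, REQ_mat01]
    push_cast
    ring
  have hp1 := M.period₁ (REQ_mat ((N : ℤ) * j)) x₀.1 h₀.1
  have hp2 := M.period₂ (REQ_mat ((N : ℤ) * j)) x₀.1 h₀.1
  rw [hmob', hχ, hV1, REQ_mat00, REQ_mat10] at hp1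
  rw [hmob', hχ, hV2, REQ_mat01, REQ_mat11] at hp2
  simp only [Int.cast_one, mul_one, Int.cast_zero, mul_zero, add_zero, Units.val_one, one_mul,
    Int.cast_mul, Int.cast_natCast] at hp1 hp2
  refine ⟨REQ_mat ((N : ℤ) * j), 0, m, ?_, ?_, ?_⟩
  · rw [hone, mul_one]
  · rw [hmob', hj]
  · have e1 : sF M t (zet M q) x₁.1 = sF M t (zet M q) x₀.1 := by
      unfold sF
      rw [hj, hp1]
      have e2 : M.F₂ (x₀.1 + (N : ℂ) * j) = M.F₂ x₀.1 - M.F₁ x₀.1 * ((N : ℂ) * j) := by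
        rw [hp1] at hp2
        linear_combination hp2
      rw [e2]
      have e3 : (zet M q * (M.F₂ x₀.1 - M.F₁ x₀.1 * ((N : ℂ) * j))).re =
          (zet M q * M.F₂ x₀.1).re - (zet M q * M.F₁ x₀.1).re * ((N : ℝ) * j) := by
        have e4 : zet M q * (M.F₂ x₀.1 - M.F₁ x₀.1 * ((N : ℂ) * j)) =
            zet M q * M.F₂ x₀.1 - (((N : ℝ) * (j : ℝ) : ℝ) : ℂ) * (zet M q * M.F₁ x₀.1) := by
          push_cast
          ring
        rw [e4, Complex.sub_re, Complex.re_ofReal_mul]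
        ring
      rw [e3]
      push_cast
      ring
    rw [e1, hjj, hm, hs1]
    push_cast
    ring

theorem REQ_RDD_symm {N : ℕ} {k k' : ZMod N} {p p' : E} (h : RDD k k' p p') : RDD k' k p' p := by
  rcases h with ⟨h1, h2⟩ | ⟨h1, h2, h3⟩ | ⟨h1, h2, h3⟩
  · exact Or.inl ⟨h1.symm, h2.symm⟩
  · refine Or.inr (Or.inr ⟨h1, h2, ?_⟩)
    rw [h3]
    have : p'.1 ^ 2 * (p.1 * p.2 ^ 2) = p.1 * (p'.1 * p.2) ^ 2 := by ring
    rw [this, h2]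
    ring
  · refine Or.inr (Or.inl ⟨h1, h2, ?_⟩)
    rw [h3]
    have : p.1 ^ 2 * p.2 * p'.2 ^ 2 = p.2 * (p.1 * p'.2) ^ 2 := by ring
    rw [this, h2]
    ring

theorem REQ_RDD_prod {N : ℕ} {k k' : ZMod N} {p p' : E} (h : RDD k k' p p') :
    p'.1 * p'.2 = p.1 * p.2 := by
  rcases h with ⟨-, h2⟩ | ⟨-, h2, h3⟩ | ⟨-, h2, h3⟩
  · rw [h2]
  · rw [h3]
    linear_combination p.1 * p.2 * h2
  · rw [h3]
    linear_combination p.1 * p.2 * h2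

theorem REQ_big {a b : ℂ} (h : a * b = 1) (hb : ‖b‖ < 65 / 64) : 64 / 65 < ‖a‖ := by
  have h1 : ‖a‖ * ‖b‖ = 1 := by rw [← norm_mul, h, norm_one]
  by_contra hc
  have h2 : ‖a‖ ≤ 64 / 65 := not_lt.1 hc
  have h3 : ‖a‖ * ‖b‖ ≤ 64 / 65 * ‖b‖ := mul_le_mul_of_nonneg_right h2 (norm_nonneg _)
  nlinarith

theorem REQ_no {a b : ℂ} (ha : 64 / 65 < ‖a‖) (hb : 64 / 65 < ‖b‖) (h : ‖a * b‖ < 2 / 5) :
    False := by
  rw [norm_mul] at h
  nlinarith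

theorem REQ_RDD_trans {N : ℕ} {k k' k'' : ZMod N} {p p' p'' : E} (hp : p ∈ UD) (hp' : p' ∈ UD)
    (hp'' : p'' ∈ UD) (h : RDD k k' p p') (h' : RDD k' k'' p' p'') : RDD k k'' p p'' := by
  have hp1 : ‖p.1‖ < 65 / 64 := hp.1
  have hp2 : ‖p.2‖ < 65 / 64 := hp.2.1
  have hp3 : ‖p'.1 * p'.2‖ < 2 / 5 := hp'.2.2
  have hp4 : ‖p''.1‖ < 65 / 64 := hp''.1
  have hp5 : ‖p''.2‖ < 65 / 64 := hp''.2.1
  rcases h with ⟨h1, h2⟩ | ⟨h1, h2, h3⟩ | ⟨h1, h2, h3⟩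
  · rw [h1, h2]
    exact h'
  · rcases h' with ⟨g1, g2⟩ | ⟨g1, g2, g3⟩ | ⟨g1, g2, g3⟩
    · rw [← g1, ← g2]
      exact Or.inr (Or.inl ⟨h1, h2, h3⟩)
    · exfalso
      exact REQ_no (REQ_big h2 hp2) (REQ_big ((mul_comm _ _).trans g2) hp4) hp3
    · refine Or.inl ⟨?_, ?_⟩
      · rw [h1, g1]
      · have hne : p'.1 ≠ 0 := left_ne_zero_of_mul_eq_one h2
        refine Prod.ext ?_ ?_
        · rw [g3, h3]
          have : p'.1 ^ 2 * (p.1 * p.2 ^ 2) = p.1 * (p'.1 * p.2) ^ 2 := by ring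
          rw [this, h2]
          ring
        · exact mul_left_cancel₀ hne (h2.trans g2.symm)
  · rcases h' with ⟨g1, g2⟩ | ⟨g1, g2, g3⟩ | ⟨g1, g2, g3⟩
    · rw [← g1, ← g2]
      exact Or.inr (Or.inr ⟨h1, h2, h3⟩)
    · refine Or.inl ⟨?_, ?_⟩
      · exact add_right_cancel (h1.symm.trans g1)
      · have hne : p'.2 ≠ 0 := right_ne_zero_of_mul_eq_one h2
        refine Prod.ext ?_ ?_
        · exact mul_right_cancel₀ hne (h2.trans g2.symm)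
        · rw [g3, h3]
          have : p.1 ^ 2 * p.2 * p'.2 ^ 2 = p.2 * (p.1 * p'.2) ^ 2 := by ring
          rw [this, h2]
          ring
    · exfalso
      exact REQ_no (REQ_big g2 hp5) (REQ_big ((mul_comm _ _).trans h2) hp1) hp3

theorem REQ_UH_pos {N : ℕ} {x : E} (h : x ∈ UH N) : 0 < x.1.im := by
  have : (4 : ℝ) / 5 < x.1.im := h.1
  linarith

/-- pass from one node chart to a related one -/
theorem REQ_move (hG : ST_GREQ) (hDD : ST_DD) (hB : ST_BOR) (hDU : ST_DU) (M : ModData) (N : ℕ)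
    (hN : NOK N) (t : ℝ) (q : QN M N) (c : Cusp M N) (k k' : ZMod N) (x p p' : E) (hx : 0 < x.1.im)
    (hp : p ∈ UD) (hp' : p' ∈ UD) (h : ∃ x₀, D0 k p x₀ ∧ GR M t q (cout M c) x x₀)
    (hr : RDD k k' p p') : ∃ x₁, D0 k' p' x₁ ∧ GR M t q (cout M c) x x₁ := by
  obtain ⟨x₀, h₀, g₀⟩ := h
  have hne := REQ_D0_ne h₀
  have hne' : p'.1 * p'.2 ≠ 0 := by rw [REQ_RDD_prod hr]; exact hne
  obtain ⟨y₀, y₁, d₀, d₁, g₁⟩ := (hDD M N hN t c c k k' p hp p' hp' hne hne').2 ⟨rfl, hr⟩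
  refine ⟨y₁, d₁, ?_⟩
  have a1 : GR M t (cout M c) (cout M c) x₀ y₀ := REQ_rep hB hDU M N hN t _ k p x₀ y₀ h₀ d₀
  have a2 := (hG M N t).2.2 q (cout M c) (cout M c) x x₀ y₀ hx g₀ a1
  exact (hG M N t).2.2 q (cout M c) (cout M c) x y₀ y₁ hx a2 g₁

theorem st_REQ (hG : ST_GREQ) (hDD : ST_DD) (hB : ST_BOR) (hDU : ST_DU) : ST_REQ := by
  intro M N hN t
  obtain ⟨grefl, gsymm, gtrans⟩ := hG M N t
  refine ⟨?_, ?_, ?_⟩
  · rintro (q | ⟨c, k⟩) x hx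
    · exact grefl q x
    · exact ⟨rfl, Or.inl ⟨rfl, rfl⟩⟩
  · rintro (q | ⟨c, k⟩) (q' | ⟨c', k'⟩) x hx y hy h
    · exact (gsymm q q' x y (REQ_UH_pos hx) h).2
    · exact h
    · exact h
    · exact ⟨h.1.symm, REQ_RDD_symm h.2⟩
  · rintro (q | ⟨c, k⟩) (q' | ⟨c', k'⟩) (q'' | ⟨c'', k''⟩) x hx y hy z hz h h'
    · exact gtrans q q' q'' x y z (REQ_UH_pos hx) h h'
    · obtain ⟨z₀, d, g⟩ := h'
      exact ⟨z₀, d, gtrans q q' (cout M c'') x y z₀ (REQ_UH_pos hx) h g⟩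
    · obtain ⟨x₀, d₀, g₀⟩ := h
      obtain ⟨x₁, d₁, g₁⟩ := h'
      have a1 : GR M t (cout M c') (cout M c') x₀ x₁ :=
        REQ_rep hB hDU M N hN t _ k' y x₀ x₁ d₀ d₁
      have a2 := gtrans q (cout M c') (cout M c') x x₀ x₁ (REQ_UH_pos hx) g₀ a1
      have a3 := (gsymm q'' (cout M c') z x₁ (REQ_UH_pos hz) g₁).2
      exact gtrans q (cout M c') q'' x x₁ z (REQ_UH_pos hx) a2 a3
    · obtain ⟨rfl, hr⟩ := h'
      exact REQ_move hG hDD hB hDU M N hN t q c' k' k'' x y z (REQ_UH_pos hx) hy hz h hr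
    · obtain ⟨x₀, d₀, g₀⟩ := h
      have a1 := (gsymm q' q'' y z (REQ_UH_pos hy) h').2
      exact ⟨x₀, d₀, gtrans q'' q' (cout M c) z y x₀ (REQ_UH_pos hz) a1 g₀⟩
    · obtain ⟨x₀, d₀, g₀⟩ := h
      obtain ⟨x₁, d₁, g₁⟩ := h'
      have a1 := gsymm q' (cout M c) y x₀ (REQ_UH_pos hy) g₀
      have a2 := gtrans (cout M c) q' (cout M c'') x₀ y x₁ a1.1 a1.2 g₁
      exact (hDD M N hN t c c'' k k'' x hx z hz (REQ_D0_ne d₀) (REQ_D0_ne d₁)).1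
        ⟨x₀, x₁, d₀, d₁, a2⟩
    · obtain ⟨rfl, hr⟩ := h
      exact REQ_move hG hDD hB hDU M N hN t q'' c k' k z y x (REQ_UH_pos hz) hy hx h'
        (REQ_RDD_symm hr)
    · obtain ⟨rfl, hr⟩ := h
      obtain ⟨rfl, hr'⟩ := h'
      exact ⟨rfl, REQ_RDD_trans hx hy hz hr hr'⟩

end RicP
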